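import Pool.Agent.Helper80.UG.Avg
import Pool.Agent.Helper24.UG.Win
import Pool.Agent.Helper24.UG.Mass
import Pool.Agent.Helper60.UG.R
import Pool.Agent.Helper65.UG.R10
import Pool.Agent.Helper65.UG.R11

/-!
# UG: Q2, many zeros in a window
-/

set_option autoImplicit false
open MeasureTheory Set Filter Topology
open Pool.Agent.Helper57.Zeta Pool.Agent.Helper57.LH Pool.Agent.Helper57.ED Pool.Agent.Helper54.LG
open Pool.Agent.Helper93.UG (zc IsOrd sp)

namespace Pool.Agent.Helper80.UG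

open Pool.Agent.Helper69.UG (XX Adm VV WW wt RR NR rr)

/-- consequences of admissibility -/
lemma adm_facts (A : ℝ) : ∃ T0 : ℝ, 3 ≤ T0 ∧ ∀ T, T0 ≤ T → ∀ c0 c : ℝ, 1 ≤ c → Adm c0 T c →
    1 ≤ XX T c ∧ Real.pi / XX T c ≤ 1 ∧ Real.exp (A * c) ≤ T ^ (1 / 8 : ℝ) ∧ A * c ≤ T := by
  have h1 : ∀ᶠ T : ℝ in atTop, max 1 (A / 2) ≤ Real.log (Real.log T) :=
    (Real.tendsto_log_atTop.comp Real.tendsto_log_atTop).eventually_ge_atTop _
  have h2 : ∀ᶠ T : ℝ in atTop, |A| * Real.log T ≤ T := by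
    have h3 := (Real.isLittleO_log_id_atTop.bound (c := 1 / (|A| + 1)) (by positivity))
    filter_upwards [h3, eventually_ge_atTop (1 : ℝ)] with T h4 h5
    rw [Real.norm_of_nonneg (Real.log_nonneg h5), id, Real.norm_of_nonneg (by linarith)] at h4
    have h6 : (|A| + 1) * Real.log T ≤ T := by
      have := mul_le_mul_of_nonneg_left h4 (by positivity : (0 : ℝ) ≤ |A| + 1)
      rw [← mul_assoc, mul_one_div_cancel (by positivity), one_mul] at this
      exact this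
    have := Real.log_nonneg h5
    linarith
  obtain ⟨T0, hT0⟩ := ((h1.and h2).and (eventually_ge_atTop (3 : ℝ))).exists_forall_of_atTop
  refine ⟨T0, (hT0 T0 le_rfl).2, fun T hT c0 c hc hA => ?_⟩
  obtain ⟨⟨hl, hA2⟩, hT3⟩ := hT0 T hT
  have hl1 : 1 ≤ Real.log (Real.log T) := (le_max_left _ _).trans hl
  have hlA : A / 2 ≤ Real.log (Real.log T) := (le_max_right _ _).trans hl
  have hc0 : 0 < c := by linarith
  have h3 := hA.2
  have hlT : 16 * c ≤ Real.log T := by nlinarith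
  have hlT0 : 0 < Real.log T := by linarith
  have hX16 : 16 ≤ XX T c := by
    unfold XX
    rw [le_div_iff₀ hc0]
    exact hlT
  refine ⟨by linarith, ?_, ?_, ?_⟩
  · rw [div_le_one (by linarith)]
    linarith [Real.pi_lt_four]
  · have h4 : A * c ≤ Real.log T * (1 / 8) := by nlinarith
    calc Real.exp (A * c) ≤ Real.exp (Real.log T * (1 / 8)) := Real.exp_le_exp.2 h4
      _ = T ^ (1 / 8 : ℝ) := by rw [Real.rpow_def_of_pos (by linarith)]
  · calc A * c ≤ |A| * c := mul_le_mul_of_nonneg_right (le_abs_self A) hc0.le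
      _ ≤ |A| * Real.log T := mul_le_mul_of_nonneg_left (by linarith) (abs_nonneg A)
      _ ≤ T := hA2

/-- mean of a small power under the weight -/
lemma wt_pow : ∃ C c0 T0 : ℝ, 0 ≤ C ∧ ∀ T, T0 ≤ T → ∀ c, Adm c0 T c → ∀ v : ℝ, v ^ 2 = c / 100 → ∀ τ : ℝ, |τ| ≤ 2 * T →
    Integrable (fun t => wt T c v τ t * (4 + |t|) ^ (1 / 16 : ℝ)) ∧
    ∫ t, wt T c v τ t * (4 + |t|) ^ (1 / 16 : ℝ) ≤ C * VV T c v * T ^ (1 / 8 : ℝ) := by
  obtain ⟨A, c1, T1, hm4⟩ := Pool.Agent.Helper60.UG.m4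
  obtain ⟨c2, T2, hrr⟩ := Pool.Agent.Helper60.UG.rr_bd
  obtain ⟨T3, hT33, hadm⟩ := adm_facts A
  obtain ⟨C, hC, hPW⟩ := PW_pow
  refine ⟨1 / 2 + C, max (max c1 c2) 1, max (max T1 T2) (max T3 4), by positivity, ?_⟩
  intro T hT c hc v hv τ hτ
  simp only [max_le_iff] at hT
  obtain ⟨⟨hT1, hT2⟩, hT3, hT4⟩ := hT
  have hcc := hc.1
  simp only [max_le_iff] at hcc
  obtain ⟨⟨hc1, hc2⟩, hc11⟩ := hcc
  have hT0 : 0 < T := by linarith
  obtain ⟨hi4, hb4⟩ := hm4 T hT1 c ⟨hc1, hc.2⟩ v hv τ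
  have hV : 1 ≤ VV T c v := (hrr T hT2 c ⟨hc2, hc.2⟩ v hv 0).2
  obtain ⟨-, -, hexp, -⟩ := hadm T hT3 _ c hc11 hc
  have hW := WW_pos hT0
  obtain ⟨hiP, hbP⟩ := hPW (WW T) hW τ
  set V := VV T c v with hVd
  have hV0 : 0 < V := by linarith
  have hpt : ∀ t, wt T c v τ t * (4 + |t|) ^ (1 / 16 : ℝ) ≤ 1 / (2 * V) * (PW (WW T) (t - τ) * ‖RR T c v t‖ ^ 4) +
      V / 2 * (PW (WW T) (t - τ) * (4 + |t|) ^ (1 / 8 : ℝ)) := by
    intro t
    have h1 : ((4 + |t|) ^ (1 / 16 : ℝ)) ^ 2 = (4 + |t|) ^ (1 / 8 : ℝ) := by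
      rw [← Real.rpow_natCast, ← Real.rpow_mul (by positivity)]
      norm_num
    rw [← h1]
    unfold wt
    set y := (4 + |t|) ^ (1 / 16 : ℝ)
    set R := ‖RR T c v t‖ with hR
    have h2 : R ^ 2 * y ≤ 1 / (2 * V) * R ^ 4 + V / 2 * y ^ 2 := by
      have h3 : 1 / (2 * V) * R ^ 4 + V / 2 * y ^ 2 - R ^ 2 * y = 1 / (2 * V) * (R ^ 2 - V * y) ^ 2 := by
        field_simp
        ring
      have h4 : 0 ≤ 1 / (2 * V) * (R ^ 2 - V * y) ^ 2 := by positivity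
      linarith
    have h3 := mul_le_mul_of_nonneg_left h2 (PW_pos hW (t - τ)).le
    calc PW (WW T) (t - τ) * R ^ 2 * y = PW (WW T) (t - τ) * (R ^ 2 * y) := by ring
      _ ≤ _ := h3
      _ = _ := by ring
  have hmaj : Integrable (fun t => 1 / (2 * V) * (PW (WW T) (t - τ) * ‖RR T c v t‖ ^ 4) +
      V / 2 * (PW (WW T) (t - τ) * (4 + |t|) ^ (1 / 8 : ℝ))) := (hi4.const_mul _).add (hiP.const_mul _)
  have hi : Integrable (fun t => wt T c v τ t * (4 + |t|) ^ (1 / 16 : ℝ)) := by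
    refine hmaj.mono' ?_ (Eventually.of_forall fun t => ?_)
    · exact ((wt_cont hT0 c v τ).mul ((continuous_const.add continuous_abs).rpow_const
        fun t => Or.inr (by norm_num))).aestronglyMeasurable
    · rw [Real.norm_of_nonneg (mul_nonneg (wt_nonneg hT0 c v τ t) (by positivity))]
      exact hpt t
  refine ⟨hi, (integral_mono hi hmaj hpt).trans ?_⟩
  rw [integral_add (hi4.const_mul _) (hiP.const_mul _), integral_const_mul, integral_const_mul]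
  have h5 : (4 + |τ| + WW T) ^ (1 / 8 : ℝ) ≤ 2 * T ^ (1 / 8 : ℝ) := by
    have hWT : WW T ≤ T := by
      unfold WW
      calc T ^ (4095 / 4096 : ℝ) ≤ T ^ (1 : ℝ) := Real.rpow_le_rpow_of_exponent_le (by linarith) (by norm_num)
        _ = T := Real.rpow_one T
    have h6 : 4 + |τ| + WW T ≤ 2 ^ (8 : ℝ) * T := by
      have : (2 : ℝ) ^ (8 : ℝ) = 256 := by norm_num
      rw [this]
      linarith
    calc (4 + |τ| + WW T) ^ (1 / 8 : ℝ) ≤ (2 ^ (8 : ℝ) * T) ^ (1 / 8 : ℝ) :=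
          Real.rpow_le_rpow (by positivity) h6 (by norm_num)
      _ = 2 * T ^ (1 / 8 : ℝ) := by
          rw [Real.mul_rpow (by positivity) hT0.le, ← Real.rpow_mul (by norm_num)]
          norm_num
  have hT8 : 0 ≤ T ^ (1 / 8 : ℝ) := by positivity
  have h7 : 1 / (2 * V) * (∫ t, PW (WW T) (t - τ) * ‖RR T c v t‖ ^ 4) ≤ 1 / 2 * V * T ^ (1 / 8 : ℝ) := by
    calc 1 / (2 * V) * (∫ t, PW (WW T) (t - τ) * ‖RR T c v t‖ ^ 4) ≤ 1 / (2 * V) * (T ^ (1 / 8 : ℝ) * V ^ 2) := by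
          refine mul_le_mul_of_nonneg_left (hb4.trans ?_) (by positivity)
          exact mul_le_mul_of_nonneg_right hexp (by positivity)
      _ = _ := by field_simp
  have h8 : V / 2 * (∫ t, PW (WW T) (t - τ) * (4 + |t|) ^ (1 / 8 : ℝ)) ≤ C * V * T ^ (1 / 8 : ℝ) := by
    calc V / 2 * (∫ t, PW (WW T) (t - τ) * (4 + |t|) ^ (1 / 8 : ℝ)) ≤ V / 2 * (C * (2 * T ^ (1 / 8 : ℝ))) := by
          refine mul_le_mul_of_nonneg_left (hbP.trans ?_) (by positivity)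
          exact mul_le_mul_of_nonneg_left h5 hC
      _ = _ := by ring
  calc 1 / (2 * V) * (∫ t, PW (WW T) (t - τ) * ‖RR T c v t‖ ^ 4) +
      V / 2 * (∫ t, PW (WW T) (t - τ) * (4 + |t|) ^ (1 / 8 : ℝ)) ≤ 1 / 2 * V * T ^ (1 / 8 : ℝ) + C * V * T ^ (1 / 8 : ℝ) :=
        add_le_add h7 h8
    _ = _ := by ring

/-- the shifts larger than `√T` -/
lemma tail_J : ∃ c0 T0 : ℝ, ∀ T, T0 ≤ T → ∀ c, Adm c0 T c → ∀ v : ℝ, v ^ 2 = c / 100 → ∀ τ : ℝ, |τ| ≤ 2 * T →
    ∫⁻ s in {s : ℝ | √T < |s|}, ENNReal.ofReal (XX T c / (2 * Real.pi) * qk 0 (XX T c * s)) *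
      ∫⁻ t, ENNReal.ofReal (wt T c v τ t * (zc (Ico (t + s - Real.pi / XX T c) (t + s + Real.pi / XX T c)) : ℝ)) ≤
      ENNReal.ofReal (VV T c v) := by
  obtain ⟨C1, c1, T1, hC1, hpow⟩ := wt_pow
  obtain ⟨T3, hT33, hadm⟩ := adm_facts 0
  obtain ⟨Cz, hCz, hz⟩ := Pool.Agent.Helper24.UG.zc_triv
  obtain ⟨C2, hC2, hK⟩ := K_tail
  have hlim : ∀ᶠ T : ℝ in atTop, 16 * Cz * C1 * C2 * T ^ (-(1 / 8) : ℝ) < 1 := by
    have h1 : Tendsto (fun T : ℝ => 16 * Cz * C1 * C2 * T ^ (-(1 / 8) : ℝ)) atTop (𝓝 (16 * Cz * C1 * C2 * 0)) :=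
      (tendsto_rpow_neg_atTop (by norm_num)).const_mul _
    exact h1.eventually_lt_const (by rw [mul_zero]; exact one_pos)
  obtain ⟨T4, hT4⟩ := hlim.exists_forall_of_atTop
  refine ⟨max c1 1, max (max T1 T3) T4, ?_⟩
  intro T hT c hc v hv τ hτ
  simp only [max_le_iff] at hT
  obtain ⟨⟨hT1, hT3⟩, hT4'⟩ := hT
  have hcc := hc.1
  simp only [max_le_iff] at hcc
  have hT0 : 0 < T := by linarith
  obtain ⟨hX1, hpi1, -, -⟩ := hadm T hT3 _ c hcc.2 hc
  obtain ⟨hi, hb⟩ := hpow T hT1 c ⟨hcc.1, hc.2⟩ v hv τ hτ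
  set V := VV T c v with hVd
  have hV0 : 0 ≤ V := VV_nonneg T c v
  have hX0 : 0 < XX T c := by linarith
  have hh0 : 0 ≤ Real.pi / XX T c := by positivity
  have hJ : ∀ s, ∫⁻ t, ENNReal.ofReal (wt T c v τ t * (zc (Ico (t + s - Real.pi / XX T c) (t + s + Real.pi / XX T c)) : ℝ)) ≤
      ENNReal.ofReal ((16 * Cz * (C1 * V * T ^ (1 / 8 : ℝ))) * (4 + |s|) ^ (1 / 16 : ℝ)) := by
    intro s
    have hpt : ∀ t, wt T c v τ t * (zc (Ico (t + s - Real.pi / XX T c) (t + s + Real.pi / XX T c)) : ℝ) ≤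
        (16 * Cz * (4 + |s|) ^ (1 / 16 : ℝ)) * (wt T c v τ t * (4 + |t|) ^ (1 / 16 : ℝ)) := by
      intro t
      have h1 := hz (t + s) (Real.pi / XX T c) hh0 hpi1
      have h2 : Real.log (4 + |t + s|) ≤ 16 * ((4 + |s|) ^ (1 / 16 : ℝ) * (4 + |t|) ^ (1 / 16 : ℝ)) := by
        rw [← Real.mul_rpow (by positivity) (by positivity)]
        have h3 : 4 + |t + s| ≤ (4 + |s|) * (4 + |t|) := by
          have := abs_add_le t s
          nlinarith [abs_nonneg s, abs_nonneg t, mul_nonneg (abs_nonneg s) (abs_nonneg t)]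
        calc Real.log (4 + |t + s|) ≤ Real.log ((4 + |s|) * (4 + |t|)) := Real.log_le_log (by positivity) h3
          _ ≤ ((4 + |s|) * (4 + |t|)) ^ (1 / 16 : ℝ) / (1 / 16) := Real.log_le_rpow_div (by positivity) (by norm_num)
          _ = _ := by ring
      calc wt T c v τ t * (zc (Ico (t + s - Real.pi / XX T c) (t + s + Real.pi / XX T c)) : ℝ)
          ≤ wt T c v τ t * (Cz * (16 * ((4 + |s|) ^ (1 / 16 : ℝ) * (4 + |t|) ^ (1 / 16 : ℝ)))) :=
            mul_le_mul_of_nonneg_left (h1.trans (mul_le_mul_of_nonneg_left h2 hCz.le)) (wt_nonneg hT0 c v τ t)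
        _ = _ := by ring
    calc ∫⁻ t, ENNReal.ofReal (wt T c v τ t * (zc (Ico (t + s - Real.pi / XX T c) (t + s + Real.pi / XX T c)) : ℝ))
        ≤ ∫⁻ t, ENNReal.ofReal ((16 * Cz * (4 + |s|) ^ (1 / 16 : ℝ)) * (wt T c v τ t * (4 + |t|) ^ (1 / 16 : ℝ))) :=
          lintegral_mono fun t => ENNReal.ofReal_le_ofReal (hpt t)
      _ = ENNReal.ofReal (∫ t, (16 * Cz * (4 + |s|) ^ (1 / 16 : ℝ)) * (wt T c v τ t * (4 + |t|) ^ (1 / 16 : ℝ))) := by
          rw [ofReal_integral_eq_lintegral_ofReal (hi.const_mul _) (Eventually.of_forall fun t =>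
            mul_nonneg (by positivity) (mul_nonneg (wt_nonneg hT0 c v τ t) (by positivity)))]
      _ ≤ _ := by
          apply ENNReal.ofReal_le_ofReal
          rw [integral_const_mul]
          calc 16 * Cz * (4 + |s|) ^ (1 / 16 : ℝ) * (∫ t, wt T c v τ t * (4 + |t|) ^ (1 / 16 : ℝ))
              ≤ 16 * Cz * (4 + |s|) ^ (1 / 16 : ℝ) * (C1 * V * T ^ (1 / 8 : ℝ)) := mul_le_mul_of_nonneg_left hb (by positivity)
            _ = _ := by ring
  have hB1 : 1 ≤ √T := Real.one_le_sqrt.2 (by linarith)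
  refine (hK (XX T c) (√T) (16 * Cz * (C1 * V * T ^ (1 / 8 : ℝ))) hX1 hB1 (by positivity) _ hJ).trans ?_
  apply ENNReal.ofReal_le_ofReal
  have h1 : (√T) ^ (-(1 / 2) : ℝ) = T ^ (-(1 / 4) : ℝ) := by
    rw [Real.sqrt_eq_rpow, ← Real.rpow_mul hT0.le]
    norm_num
  have h2 : T ^ (1 / 8 : ℝ) * T ^ (-(1 / 4) : ℝ) = T ^ (-(1 / 8) : ℝ) := by
    rw [← Real.rpow_add hT0]
    norm_num
  rw [h1]
  calc 16 * Cz * (C1 * V * T ^ (1 / 8 : ℝ)) * (C2 * T ^ (-(1 / 4) : ℝ)) =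
      V * (16 * Cz * C1 * C2 * (T ^ (1 / 8 : ℝ) * T ^ (-(1 / 4) : ℝ))) := by ring
    _ ≤ V * 1 := by
        rw [h2]
        exact mul_le_mul_of_nonneg_left (hT4 T hT4').le hV0
    _ = V := mul_one V

/-- The statement of K6. -/
def NxDev : Prop := ∃ C c0 T0 : ℝ, 0 < C ∧ ∀ T, T0 ≤ T → ∀ c, Adm c0 T c → ∀ v : ℝ, v ^ 2 = c / 100 →
    ∀ τ u e : ℝ, T ≤ τ → τ ≤ 2 * T → |u| ≤ √T → e = 1 ∨ e = 2 →
    Integrable (fun t => wt T c v τ t * |Helper69.UG.NX (XX T c / e) (t + u) - e * c + SS (XX T c / e) (t + u)|) ∧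
    ∫ t, wt T c v τ t * |Helper69.UG.NX (XX T c / e) (t + u) - e * c + SS (XX T c / e) (t + u)| ≤ C * VV T c v

lemma alg1 {V c sc κ Cd M : ℝ} (hV : 0 < V) (h : V * (c + κ * sc / 10 - Cd - 1) ≤ M) (hb : 20 * (Cd + 3) ≤ sc * κ) :
    V * (c + κ * sc / 20) + V < M := by
  have h1 : V * (Cd + 3) ≤ V * (κ * sc / 20) := mul_le_mul_of_nonneg_left (by linarith) hV.le
  linarith

lemma alg2 {V c sc κ Cw K m w0 θ : ℝ} (hV : 0 < V) (h1 : V * (c + κ * sc / 20) ≤ Cw * (3 / 2 * c * m + K * V) + (c + θ * sc) * w0)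
    (h2 : (c + θ * sc) * w0 ≤ (c + θ * sc) * V + V) (h3 : θ = κ / 40) (h4 : 40 * (Cw * K + 2) ≤ sc * κ) :
    V ≤ 3 / 2 * Cw * c * m := by
  have h5 : V * (Cw * K + 2) ≤ V * (κ * sc / 40) := mul_le_mul_of_nonneg_left (by linarith) hV.le
  rw [h3] at h1 h2
  linarith

lemma alg3 {V c κ T θ sc : ℝ} (hV : 0 < V) (hT : 0 < T) (hκ : 0 < κ) (hsc : 0 ≤ sc) (hscc : sc ≤ c) (hθ : θ = κ / 40)
    (hcT : (1 + κ) * c ≤ T) : (c + θ * sc) * (V / T) ≤ V := by
  have h2 : c + θ * sc ≤ T := by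
    have h3 : θ * sc ≤ κ * c := by
      rw [hθ]
      have h4 : κ / 40 * sc ≤ κ * sc := mul_le_mul_of_nonneg_right (by linarith) hsc
      exact h4.trans (mul_le_mul_of_nonneg_left hscc hκ.le)
    linarith
  calc (c + θ * sc) * (V / T) ≤ T * (V / T) := mul_le_mul_of_nonneg_right h2 (by positivity)
    _ = V := by field_simp

/-- Q2: `v < 0`, many zeros in a window -/
theorem many_of (nx_dev : NxDev) :
    ∃ θ c0 T0 : ℝ, 0 < θ ∧ ∀ T, T0 ≤ T → ∀ c, Adm c0 T c → ∀ v : ℝ, v ^ 2 = c / 100 → v < 0 →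
    ∀ τ, T ≤ τ → τ ≤ 2 * T → ∃ s : ℝ, |s| ≤ √T ∧
      Real.exp (-c) * VV T c v ≤ ∫ t in {t : ℝ | t + s ∈
        {t : ℝ | c + θ * √c ≤ (zc (Ico (t - Real.pi / XX T c) (t + Real.pi / XX T c)) : ℝ)}}, wt T c v τ t := by
  obtain ⟨Cd, cd, Td, hCd, hnx⟩ := nx_dev
  obtain ⟨κ, ce, Te, hκ, heSS⟩ := Pool.Agent.Helper65.UG.eSS
  obtain ⟨Cs, cs, Ts, hCs, hvSS⟩ := Pool.Agent.Helper65.UG.vSS
  obtain ⟨ct, Tt, htail⟩ := tail_J
  obtain ⟨cm, Tm, hmass⟩ := Pool.Agent.Helper60.UG.wmass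
  obtain ⟨cr, Tr, hrr⟩ := Pool.Agent.Helper60.UG.rr_bd
  obtain ⟨Cw, hCw, hwin⟩ := Pool.Agent.Helper24.UG.window_le
  obtain ⟨Ta, hTa3, hadm⟩ := adm_facts (1 + κ)
  -- constants
  set θ : ℝ := κ / 40 with hθ
  set c9 : ℝ := (20 * (Cd + 3) / κ) ^ 2 + (40 * (Cw * (Cs / 2 + Cd) + 2) / κ) ^ 2 + 3 * Cw + 1 with hc9
  refine ⟨θ, max (max (max cd ce) (max cs ct)) (max (max cm cr) c9), max (max (max Td Te) (max Ts Tt)) (max (max Tm Tr) Ta),
    by positivity, ?_⟩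
  intro T hT c hc v hv hv0 τ hτ1 hτ2
  simp only [max_le_iff] at hT
  obtain ⟨⟨⟨hTd, hTe⟩, hTs, hTt⟩, ⟨hTm, hTr⟩, hTa⟩ := hT
  have hcc := hc.1
  simp only [max_le_iff] at hcc
  obtain ⟨⟨⟨hcd, hce⟩, hcs, hct⟩, ⟨hcm, hcr⟩, hc9'⟩ := hcc
  have hT0 : 0 < T := by linarith
  have hc1 : 1 ≤ c := by
    refine le_trans ?_ hc9'
    rw [hc9]
    have : 0 ≤ (20 * (Cd + 3) / κ) ^ 2 + (40 * (Cw * (Cs / 2 + Cd) + 2) / κ) ^ 2 + 3 * Cw := by positivity
    linarith
  have hc0 : 0 < c := by linarith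
  obtain ⟨hX1, hpi1, -, hcT⟩ := hadm T hTa _ c hc1 hc
  have hX0 : 0 < XX T c := by linarith
  set V := VV T c v with hVd
  have hV1 : 1 ≤ V := (hrr T hTr c ⟨hcr, hc.2⟩ v hv 0).2
  have hV0 : 0 < V := by linarith
  obtain ⟨hwi, hwm⟩ := hmass T hTm c ⟨hcm, hc.2⟩ v hv τ
  rw [← hVd] at hwm
  have hτabs : |τ| ≤ 2 * T := by rw [abs_of_nonneg (by linarith)]; exact hτ2
  have hsqrtT : 1 ≤ √T := Real.one_le_sqrt.2 (by linarith)
  -- the deviation for e = 1
  have hD : ∀ u : ℝ, |u| ≤ √T → Integrable (fun t => wt T c v τ t * |Helper69.UG.NX (XX T c) (t + u) - c + SS (XX T c) (t + u)|) ∧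
      ∫ t, wt T c v τ t * |Helper69.UG.NX (XX T c) (t + u) - c + SS (XX T c) (t + u)| ≤ Cd * V := by
    intro u hu
    have h1 := hnx T hTd c ⟨hcd, hc.2⟩ v hv τ u 1 hτ1 hτ2 hu (Or.inl rfl)
    simpa only [div_one, one_mul] using h1
  obtain ⟨hNi, hNb⟩ := mean_N hT0 hX0 (hpi1.trans hsqrtT) hwi hD
  set M : ℝ := ∫ t, wt T c v τ t * (XX T c / (2 * Real.pi) *
      ∫ w in (-(Real.pi / XX T c))..(Real.pi / XX T c), Helper69.UG.NX (XX T c) (t + w)) with hM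
  set Sb : ℝ := ∫ t, wt T c v τ t * (XX T c / (2 * Real.pi) *
      ∫ w in (-(Real.pi / XX T c))..(Real.pi / XX T c), SS (XX T c) (t + w)) with hSb
  set w0 : ℝ := ∫ t, wt T c v τ t with hw0
  have he := heSS T hTe c ⟨hce, hc.2⟩ v hv τ
  rw [← hSb, ← hVd] at he
  have hsq : 0 < √c := Real.sqrt_pos.2 hc0
  have hsqc : √c * √c = c := Real.mul_self_sqrt hc0.le
  have hvs : v = -(√c / 10) := by
    have h1 : (-v) ^ 2 = (√c / 10) ^ 2 := by
      rw [neg_sq, hv, div_pow, Real.sq_sqrt hc0.le]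
      norm_num
    have h2 := (pow_left_inj₀ (by linarith : (0 : ℝ) ≤ -v) (by positivity) two_ne_zero).1 h1
    linarith
  have hSbneg : Sb ≤ -(κ * (√c / 10) * V) := by
    rw [hvs] at he
    have h1 : (√c / 10) * (κ * (√c / 10) * V) ≤ (√c / 10) * (-Sb) := by linarith
    have h2 := le_of_mul_le_mul_left h1 (by positivity)
    linarith
  have hcT1 : (1 + κ) * c ≤ T := hcT
  have hVT : V / T * c ≤ V := by
    rw [div_mul_eq_mul_div, div_le_iff₀ hT0]
    refine mul_le_mul_of_nonneg_left ?_ hV0.le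
    have : 0 ≤ κ * c := by positivity
    linarith
  rw [abs_le] at hNb hwm
  have hMlow : V * (c + κ * √c / 10 - Cd - 1) ≤ M := by
    have h1 : c * V - c * (V / T) ≤ c * w0 := by
      have := mul_le_mul_of_nonneg_left hwm.1 hc0.le
      linarith
    have h2 := hNb.1
    have h3 : c * (V / T) ≤ V := by rw [mul_comm]; exact hVT
    linarith
  -- thresholds for c
  have hb1 : 20 * (Cd + 3) / κ ≤ √c := by
    apply Real.le_sqrt_of_sq_le
    have : 0 ≤ (40 * (Cw * (Cs / 2 + Cd) + 2) / κ) ^ 2 + 3 * Cw + 1 := by positivity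
    linarith
  have hb2 : 40 * (Cw * (Cs / 2 + Cd) + 2) / κ ≤ √c := by
    apply Real.le_sqrt_of_sq_le
    have : 0 ≤ (20 * (Cd + 3) / κ) ^ 2 + 3 * Cw + 1 := by positivity
    linarith
  have hb3 : 3 * Cw ≤ c := by
    have : 0 ≤ (20 * (Cd + 3) / κ) ^ 2 + (40 * (Cw * (Cs / 2 + Cd) + 2) / κ) ^ 2 := by positivity
    linarith
  rw [div_le_iff₀ hκ] at hb1 hb2
  -- the choice of the shift
  obtain ⟨hKi, hK1, hKt⟩ := Pool.Agent.Helper24.UG.qk_mass hX0
  have hK0 : ∀ s, 0 ≤ XX T c / (2 * Real.pi) * qk 0 (XX T c * s) := fun s => mul_nonneg (by positivity) (qk_zero_nonneg _)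
  have hKm : Measurable (fun s => XX T c / (2 * Real.pi) * qk 0 (XX T c * s)) :=
    (continuous_const.mul ((qk_cont 0).comp (by fun_prop))).measurable
  set Z : ℝ → ℝ := fun t => (zc (Ico (t - Real.pi / XX T c) (t + Real.pi / XX T c)) : ℝ) with hZ
  have hZm : Measurable Z := Pool.Agent.Helper24.UG.zc_meas (Real.pi / XX T c)
  have hZ0 : ∀ t, 0 ≤ Z t := fun t => Nat.cast_nonneg _
  have hton := tonelli (w := wt T c v τ) (Z := Z) (wt_nonneg hT0 c v τ) (wt_cont hT0 c v τ).measurable hZ0 hZm hK0 hKm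
    (fun t => Pool.Agent.Helper24.UG.window hX0 t) hNi
  rw [← hM] at hton
  obtain ⟨s, hs, hsJ⟩ := choice_ge (B := √T) (e := V) (a := V * (c + κ * √c / 20)) hK0 hKi hK1 hton.ge
    (htail T hTt c ⟨hct, hc.2⟩ v hv τ hτabs) hV0.le (by positivity) (alg1 hV0 hMlow hb1)
  refine ⟨s, hs, ?_⟩
  -- the set
  set G : Set ℝ := {t : ℝ | c + θ * √c ≤ Z (t + s)} with hG
  have hGm : MeasurableSet G := measurableSet_le measurable_const (hZm.comp (measurable_id.add_const s))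
  have hGeq : {t : ℝ | t + s ∈ {t : ℝ | c + θ * √c ≤ (zc (Ico (t - Real.pi / XX T c) (t + Real.pi / XX T c)) : ℝ)}} = G := rfl
  rw [hGeq]
  set m : ℝ := ∫ t in G, wt T c v τ t with hm
  have hm0 : 0 ≤ m := setIntegral_nonneg hGm fun t _ => wt_nonneg hT0 c v τ t
  -- majorant on G
  obtain ⟨hDi, hDb⟩ := hD s hs
  have hSc : Continuous (fun t => SS (XX T c) (t + s)) := (SS_cont (XX T c)).comp (continuous_add_const s)
  obtain ⟨CS, hCS0, hCS⟩ := SS_bdd (XX T c)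
  have hSi : Integrable (fun t => wt T c v τ t * SS (XX T c) (t + s) ^ 2) := by
    refine hwi.mul_bdd (c := CS ^ 2) (hSc.pow 2).aestronglyMeasurable (Eventually.of_forall fun t => ?_)
    rw [Real.norm_of_nonneg (sq_nonneg _), ← sq_abs]
    exact pow_le_pow_left₀ (abs_nonneg _) (hCS _) 2
  have hSb2 : ∫ t, wt T c v τ t * SS (XX T c) (t + s) ^ 2 ≤ Cs * c * V := by
    have h1 := hvSS T hTs c ⟨hcs, hc.2⟩ v hv τ s 1 (Or.inl rfl)
    simpa only [div_one] using h1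
  set g : ℝ → ℝ := fun t => 3 / 2 * c * wt T c v τ t + 1 / (2 * c) * (wt T c v τ t * SS (XX T c) (t + s) ^ 2) +
    wt T c v τ t * |Helper69.UG.NX (XX T c) (t + s) - c + SS (XX T c) (t + s)| with hg
  have hgi : Integrable g := ((hwi.const_mul _).add (hSi.const_mul _)).add hDi
  have hg0 : ∀ t, 0 ≤ g t := by
    intro t
    have := wt_nonneg hT0 c v τ t
    positivity
  have hZg : ∀ t, wt T c v τ t * Z (t + s) ≤ Cw * g t := by
    intro t
    have hw := wt_nonneg hT0 c v τ t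
    have h1 : Z (t + s) ≤ Cw * Helper69.UG.NX (XX T c) (t + s) := hwin (XX T c) hX0 (t + s)
    have h2 : Helper69.UG.NX (XX T c) (t + s) ≤ c + |SS (XX T c) (t + s)| +
        |Helper69.UG.NX (XX T c) (t + s) - c + SS (XX T c) (t + s)| := by
      have h3 := le_abs_self (Helper69.UG.NX (XX T c) (t + s) - c + SS (XX T c) (t + s))
      have h4 := neg_abs_le (SS (XX T c) (t + s))
      linarith
    have h3 : |SS (XX T c) (t + s)| ≤ c / 2 + 1 / (2 * c) * SS (XX T c) (t + s) ^ 2 := by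
      rw [← sq_abs (SS (XX T c) (t + s))]
      set y := |SS (XX T c) (t + s)|
      have h4 : c / 2 + 1 / (2 * c) * y ^ 2 - y = 1 / (2 * c) * (y - c) ^ 2 := by
        field_simp
        ring
      have h5 : 0 ≤ 1 / (2 * c) * (y - c) ^ 2 := by positivity
      linarith
    have h4 : Z (t + s) ≤ Cw * (3 / 2 * c + 1 / (2 * c) * SS (XX T c) (t + s) ^ 2 +
        |Helper69.UG.NX (XX T c) (t + s) - c + SS (XX T c) (t + s)|) :=
      h1.trans (mul_le_mul_of_nonneg_left (by linarith) hCw.le)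
    calc wt T c v τ t * Z (t + s) ≤ wt T c v τ t * (Cw * (3 / 2 * c + 1 / (2 * c) * SS (XX T c) (t + s) ^ 2 +
        |Helper69.UG.NX (XX T c) (t + s) - c + SS (XX T c) (t + s)|)) := mul_le_mul_of_nonneg_left h4 hw
      _ = _ := by rw [hg]; ring
  have hgG : ∫ t in G, g t ≤ 3 / 2 * c * m + (Cs / 2 + Cd) * V := by
    have h1 : ∫ t in G, g t = 3 / 2 * c * m + 1 / (2 * c) * (∫ t in G, wt T c v τ t * SS (XX T c) (t + s) ^ 2) +
        ∫ t in G, wt T c v τ t * |Helper69.UG.NX (XX T c) (t + s) - c + SS (XX T c) (t + s)| := by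
      have hi1 : Integrable (fun t => 3 / 2 * c * wt T c v τ t + 1 / (2 * c) * (wt T c v τ t * SS (XX T c) (t + s) ^ 2)) :=
        (hwi.const_mul _).add (hSi.const_mul _)
      have h2 := integral_add (μ := volume.restrict G) (f := fun t => 3 / 2 * c * wt T c v τ t + 1 / (2 * c) * (wt T c v τ t * SS (XX T c) (t + s) ^ 2))
        (g := fun t => wt T c v τ t * |Helper69.UG.NX (XX T c) (t + s) - c + SS (XX T c) (t + s)|)
        hi1.integrableOn hDi.integrableOn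
      have h3 := integral_add (μ := volume.restrict G) (f := fun t => 3 / 2 * c * wt T c v τ t) (g := fun t => 1 / (2 * c) * (wt T c v τ t * SS (XX T c) (t + s) ^ 2))
        (hwi.const_mul _).integrableOn (hSi.const_mul _).integrableOn
      rw [h3, integral_const_mul, integral_const_mul] at h2
      exact h2
    have h2 : ∫ t in G, wt T c v τ t * SS (XX T c) (t + s) ^ 2 ≤ Cs * c * V :=
      (setIntegral_le_integral hSi (Eventually.of_forall fun t => mul_nonneg (wt_nonneg hT0 c v τ t) (sq_nonneg _))).trans hSb2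
    have h3 : ∫ t in G, wt T c v τ t * |Helper69.UG.NX (XX T c) (t + s) - c + SS (XX T c) (t + s)| ≤ Cd * V :=
      (setIntegral_le_integral hDi (Eventually.of_forall fun t => mul_nonneg (wt_nonneg hT0 c v τ t) (abs_nonneg _))).trans hDb
    have h4 : 1 / (2 * c) * (∫ t in G, wt T c v τ t * SS (XX T c) (t + s) ^ 2) ≤ Cs / 2 * V := by
      calc 1 / (2 * c) * (∫ t in G, wt T c v τ t * SS (XX T c) (t + s) ^ 2) ≤ 1 / (2 * c) * (Cs * c * V) :=
            mul_le_mul_of_nonneg_left h2 (by positivity)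
        _ = Cs / 2 * V := by field_simp
    rw [h1]
    linarith
  -- the splitting
  have hsplit : V * (c + κ * √c / 20) ≤ Cw * (3 / 2 * c * m + (Cs / 2 + Cd) * V) + (c + θ * √c) * w0 := by
    have hθc : 0 ≤ c + θ * √c := by positivity
    have hw00 : 0 ≤ w0 := integral_nonneg fun t => wt_nonneg hT0 c v τ t
    have h1 : ∫⁻ t, ENNReal.ofReal (wt T c v τ t * Z (t + s)) ≤
        ENNReal.ofReal (Cw * (3 / 2 * c * m + (Cs / 2 + Cd) * V) + (c + θ * √c) * w0) := by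
      rw [← lintegral_add_compl _ hGm, ENNReal.ofReal_add (by positivity) (by positivity)]
      refine add_le_add ?_ ?_
      · calc ∫⁻ t in G, ENNReal.ofReal (wt T c v τ t * Z (t + s)) ≤ ∫⁻ t in G, ENNReal.ofReal (Cw * g t) :=
              lintegral_mono fun t => ENNReal.ofReal_le_ofReal (hZg t)
          _ = ENNReal.ofReal (∫ t in G, Cw * g t) := by
              rw [ofReal_integral_eq_lintegral_ofReal (hgi.const_mul Cw).integrableOn
                (Eventually.of_forall fun t => mul_nonneg hCw.le (hg0 t))]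
          _ ≤ _ := by
              apply ENNReal.ofReal_le_ofReal
              rw [integral_const_mul]
              exact mul_le_mul_of_nonneg_left hgG hCw.le
      · calc ∫⁻ t in Gᶜ, ENNReal.ofReal (wt T c v τ t * Z (t + s)) ≤
              ∫⁻ t in Gᶜ, ENNReal.ofReal ((c + θ * √c) * wt T c v τ t) := by
              refine setLIntegral_mono' hGm.compl fun t ht => ENNReal.ofReal_le_ofReal ?_
              rw [hG, mem_compl_iff, mem_ofPred_eq, not_le] at ht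
              rw [mul_comm]
              exact mul_le_mul_of_nonneg_right ht.le (wt_nonneg hT0 c v τ t)
          _ ≤ ∫⁻ t, ENNReal.ofReal ((c + θ * √c) * wt T c v τ t) := setLIntegral_le_lintegral _ _
          _ = ENNReal.ofReal ((c + θ * √c) * w0) := by
              rw [← ofReal_integral_eq_lintegral_ofReal (hwi.const_mul _)
                (Eventually.of_forall fun t => mul_nonneg hθc (wt_nonneg hT0 c v τ t)), integral_const_mul]
    exact (ENNReal.ofReal_le_ofReal_iff (by positivity)).1 (hsJ.trans h1)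
  -- conclusion
  have hθT : (c + θ * √c) * (V / T) ≤ V := by
    refine alg3 hV0 hT0 hκ hsq.le ?_ hθ hcT1
    have h1 := Real.one_le_sqrt.2 hc1
    calc √c = √c * 1 := (mul_one _).symm
      _ ≤ √c * √c := mul_le_mul_of_nonneg_left h1 hsq.le
      _ = c := hsqc
  have hw0le : (c + θ * √c) * w0 ≤ (c + θ * √c) * V + V := by
    have hθc : 0 ≤ c + θ * √c := by positivity
    have := mul_le_mul_of_nonneg_left hwm.2 hθc
    linarith
  have hfin : V ≤ 3 / 2 * Cw * c * m := alg2 hV0 hsplit hw0le hθ hb2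
  have hexpc : 3 / 2 * Cw * c ≤ Real.exp c := by
    have h1 := Real.quadratic_le_exp_of_nonneg hc0.le
    have h2 : 3 * Cw * c ≤ c * c := mul_le_mul_of_nonneg_right hb3 hc0.le
    have h3 : c ^ 2 = c * c := sq c
    linarith
  have hfin2 : V ≤ Real.exp c * m := hfin.trans (mul_le_mul_of_nonneg_right hexpc hm0)
  calc Real.exp (-c) * V ≤ Real.exp (-c) * (Real.exp c * m) := mul_le_mul_of_nonneg_left hfin2 (Real.exp_pos _).le
    _ = m := by rw [← mul_assoc, ← Real.exp_add, neg_add_cancel, Real.exp_zero, one_mul]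

end Pool.Agent.Helper80.UG
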