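import Pool.Agent.Helper69.UG.Defs
import Pool.Agent.Helper24.UG.Ker
import Pool.Agent.Helper54.LG.Mu

/-!
# UG: averages of the window counts (tools for Q1 and Q2)
-/

set_option autoImplicit false
open MeasureTheory Set Filter Topology
open Pool.Agent.Helper57.Zeta Pool.Agent.Helper57.LH Pool.Agent.Helper57.ED Pool.Agent.Helper54.LG
open Pool.Agent.Helper93.UG (zc IsOrd sp)

namespace Pool.Agent.Helper80.UG

open Pool.Agent.Helper69.UG (XX Adm VV WW wt RR NR rr)

lemma NX_nonneg (X t : ℝ) : 0 ≤ Helper69.UG.NX X t :=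
  tsum_nonneg fun _ => mul_nonneg (mx_nonneg _) (qk_zero_nonneg _)

lemma zb_cont (X : ℝ) (ρ : ℂ) : Continuous fun t => zb X t ρ := by
  unfold zb
  fun_prop

lemma NX_meas (X : ℝ) : Measurable (Helper69.UG.NX X) := by
  have h : Helper69.UG.NX X = fun t => (∑' ρ : ZS, ENNReal.ofReal (mx ρ * qk 0 (zb X t ρ))).toReal := by
    funext t
    rw [ENNReal.tsum_toReal_eq (fun _ => ENNReal.ofReal_ne_top)]
    unfold Helper69.UG.NX
    refine tsum_congr fun ρ => ?_
    rw [ENNReal.toReal_ofReal (mul_nonneg (mx_nonneg _) (qk_zero_nonneg _))]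
  rw [h]
  refine (Measurable.tsum fun ρ => ?_).ennreal_toReal
  exact (continuous_const.mul ((qk_cont 0).comp (zb_cont X ρ))).measurable.ennreal_ofReal

lemma NX_le {X : ℝ} (hX : 0 < X) (t w : ℝ) :
    Helper69.UG.NX X (t + w) ≤ 42 * (1 + X ^ 2 * w ^ 2) * ∑' ρ : ZS, mx ρ * (1 / (1 + zb X t ρ ^ 2)) := by
  unfold Helper69.UG.NX
  rw [← tsum_mul_left]
  refine Summable.tsum_le_tsum (fun ρ => ?_) (Helper24.UG.summable_q0 hX _) ((Helper24.UG.summable_inv hX t).mul_left _)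
  have h1 := qk_bound 0 (zb X (t + w) ρ)
  rw [Real.cosh_zero, mul_one] at h1
  have h2 : qk 0 (zb X (t + w) ρ) ≤ 21 / (1 + zb X (t + w) ρ ^ 2) := (le_abs_self _).trans h1
  have h3 : 21 / (1 + zb X (t + w) ρ ^ 2) ≤ 42 * (1 + X ^ 2 * w ^ 2) * (1 / (1 + zb X t ρ ^ 2)) := by
    rw [mul_one_div, div_le_div_iff₀ (by positivity) (by positivity)]
    have h4 : zb X (t + w) ρ = zb X t ρ + X * w := by unfold zb; ring
    rw [h4]
    nlinarith [sq_nonneg (zb X t ρ + 2 * (X * w)), sq_nonneg (X * w * (zb X t ρ + X * w)), sq_nonneg (X * w), sq_nonneg (zb X t ρ)]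
  calc mx ρ * qk 0 (zb X (t + w) ρ) ≤ mx ρ * (42 * (1 + X ^ 2 * w ^ 2) * (1 / (1 + zb X t ρ ^ 2))) :=
        mul_le_mul_of_nonneg_left (h2.trans h3) (mx_nonneg _)
    _ = _ := by ring

lemma NX_ii {X : ℝ} (hX : 0 < X) (t h : ℝ) : IntervalIntegrable (fun w => Helper69.UG.NX X (t + w)) volume (-h) h := by
  refine (intervalIntegrable_const (c := 42 * (1 + X ^ 2 * h ^ 2) * ∑' ρ : ZS, mx ρ * (1 / (1 + zb X t ρ ^ 2)))).mono_fun
    (((NX_meas X).comp (measurable_const_add t)).aestronglyMeasurable) ?_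
  rw [Filter.EventuallyLE, ae_restrict_iff' measurableSet_uIoc]
  refine Eventually.of_forall fun w hw => ?_
  have h0 : w ^ 2 ≤ h ^ 2 := by
    rw [uIoc, mem_Ioc] at hw
    rcases le_total (-h) h with h1 | h1
    · rw [min_eq_left h1, max_eq_right h1] at hw
      nlinarith
    · rw [min_eq_right h1, max_eq_left h1] at hw
      nlinarith
  have h1 := NX_le hX t w
  have h2 : 0 ≤ ∑' ρ : ZS, mx ρ * (1 / (1 + zb X t ρ ^ 2)) :=
    tsum_nonneg fun ρ => mul_nonneg (mx_nonneg _) (by positivity)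
  rw [Real.norm_of_nonneg (NX_nonneg _ _)]
  refine h1.trans (le_trans ?_ (le_abs_self _))
  have h3 : X ^ 2 * w ^ 2 ≤ X ^ 2 * h ^ 2 := mul_le_mul_of_nonneg_left h0 (sq_nonneg X)
  exact mul_le_mul_of_nonneg_right (by linarith) h2

lemma SS_cont (X : ℝ) : Continuous (SS X) := by
  unfold SS
  fun_prop

lemma SS_bdd (X : ℝ) : ∃ C : ℝ, 0 ≤ C ∧ ∀ t, |SS X t| ≤ C := by
  refine ⟨|2 / X| * ∑ n ∈ Finset.range (⌊Real.exp X⌋₊ + 1),
    |ArithmeticFunction.vonMangoldt n / Real.sqrt n * (1 - Real.log n / X) ^ 2|, by positivity, fun t => ?_⟩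
  unfold SS
  rw [abs_mul]
  refine mul_le_mul_of_nonneg_left ((Finset.abs_sum_le_sum_abs _ _).trans (Finset.sum_le_sum fun n _ => ?_)) (abs_nonneg _)
  rw [abs_mul]
  exact mul_le_of_le_one_right (abs_nonneg _) (Real.abs_cos_le_one _)

lemma RR_cont (T c v : ℝ) : Continuous (RR T c v) := by
  unfold RR
  refine continuous_finsetSum _ fun n hn => ?_
  have hn0 : (n : ℂ) ≠ 0 := by
    have := (Finset.mem_Icc.1 hn).1
    exact_mod_cast (by omega : n ≠ 0)
  refine continuous_const.mul (Continuous.const_cpow (by fun_prop) (Or.inl hn0))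

lemma WW_pos {T : ℝ} (hT : 0 < T) : 0 < WW T := Real.rpow_pos_of_pos hT _

lemma wt_cont {T : ℝ} (hT : 0 < T) (c v τ : ℝ) : Continuous (wt T c v τ) := by
  unfold wt PW
  have hW := WW_pos hT
  have hR := RR_cont T c v
  refine Continuous.mul (Continuous.div continuous_const (by fun_prop) fun t => ?_) (by fun_prop)
  have := Real.pi_pos
  positivity

lemma wt_nonneg {T : ℝ} (hT : 0 < T) (c v τ t : ℝ) : 0 ≤ wt T c v τ t :=
  mul_nonneg (PW_pos (WW_pos hT) _).le (sq_nonneg _)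

lemma VV_nonneg (T c v : ℝ) : 0 ≤ VV T c v := Finset.sum_nonneg fun n _ => by positivity

/-- the mean of the averaged kernel sums -/
theorem mean_N {T c v τ D : ℝ} (hT : 0 < T) (hX : 0 < XX T c) (hpi : Real.pi / XX T c ≤ √T)
    (hw : Integrable (wt T c v τ))
    (hD : ∀ u : ℝ, |u| ≤ √T → Integrable (fun t => wt T c v τ t * |Helper69.UG.NX (XX T c) (t + u) - c + SS (XX T c) (t + u)|) ∧
      ∫ t, wt T c v τ t * |Helper69.UG.NX (XX T c) (t + u) - c + SS (XX T c) (t + u)| ≤ D) :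
    Integrable (fun t => wt T c v τ t * (XX T c / (2 * Real.pi) *
      ∫ w in (-(Real.pi / XX T c))..(Real.pi / XX T c), Helper69.UG.NX (XX T c) (t + w))) ∧
    |(∫ t, wt T c v τ t * (XX T c / (2 * Real.pi) *
      ∫ w in (-(Real.pi / XX T c))..(Real.pi / XX T c), Helper69.UG.NX (XX T c) (t + w))) - c * (∫ t, wt T c v τ t) +
      ∫ t, wt T c v τ t * (XX T c / (2 * Real.pi) *
      ∫ w in (-(Real.pi / XX T c))..(Real.pi / XX T c), SS (XX T c) (t + w))| ≤ D := by
  set X := XX T c with hXd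
  set h := Real.pi / X with hh
  have hh0 : 0 < h := div_pos Real.pi_pos hX
  have hhX : X / (2 * Real.pi) = 1 / (2 * h) := by
    rw [hh]; field_simp
  obtain ⟨CS, hCS0, hCS⟩ := SS_bdd X
  set F : ℝ × ℝ → ℝ := fun z => wt T c v τ z.1 * (Helper69.UG.NX X (z.1 + z.2) - c + SS X (z.1 + z.2)) with hF
  have hFm : Measurable F := by
    refine ((wt_cont hT c v τ).measurable.comp measurable_fst).mul ?_
    exact (((NX_meas X).comp (measurable_fst.add measurable_snd)).sub_const c).add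
      ((SS_cont X).measurable.comp (measurable_fst.add measurable_snd))
  set ν : Measure ℝ := volume.restrict (Ioc (-h) h) with hν
  have hfin : IsFiniteMeasure ν := by rw [hν]; infer_instance
  have hnorm : ∀ w t, ‖F (t, w)‖ = wt T c v τ t * |Helper69.UG.NX X (t + w) - c + SS X (t + w)| := by
    intro w t
    rw [hF, Real.norm_eq_abs, abs_mul, abs_of_nonneg (wt_nonneg hT c v τ t)]
  have hwT : ∀ w ∈ Ioc (-h) h, |w| ≤ √T := by
    intro w hw
    rw [mem_Ioc] at hw
    rw [abs_le]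
    constructor <;> linarith [hw.1, hw.2]
  have hFs : ∀ w, Measurable (fun t => F (t, w)) := fun w => hFm.comp (measurable_id.prodMk measurable_const)
  have hnm : Measurable (fun w => ∫ t, ‖F (t, w)‖) :=
    (hFm.norm.stronglyMeasurable.integral_prod_left' (μ := (volume : Measure ℝ))).measurable
  have hbd : ∀ᵐ w ∂ν, ‖∫ t, ‖F (t, w)‖‖ ≤ D := by
    rw [hν, ae_restrict_iff' measurableSet_Ioc]
    refine Eventually.of_forall fun w hw => ?_
    rw [Real.norm_of_nonneg (integral_nonneg fun t => norm_nonneg _)]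
    simp only [hnorm]
    exact (hD w (hwT w hw)).2
  have hFi : Integrable F (volume.prod ν) := by
    rw [integrable_prod_iff' hFm.aestronglyMeasurable]
    constructor
    · rw [hν, ae_restrict_iff' measurableSet_Ioc]
      refine Eventually.of_forall fun w hw => ?_
      rw [← integrable_norm_iff (hFs w).aestronglyMeasurable]
      simp only [hnorm]
      exact (hD w (hwT w hw)).1
    · exact Integrable.of_bound hnm.aestronglyMeasurable D hbd
  -- the inner integral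
  have hin : ∀ t, ∫ w, F (t, w) ∂ν = wt T c v τ t * (∫ w in (-h)..h, Helper69.UG.NX X (t + w)) - wt T c v τ t * (2 * h * c) +
      wt T c v τ t * (∫ w in (-h)..h, SS X (t + w)) := by
    intro t
    have h1 : ∫ w, F (t, w) ∂ν = ∫ w in (-h)..h, F (t, w) := by
      rw [hν, intervalIntegral.integral_of_le (by linarith)]
    have h2 : IntervalIntegrable (fun w => SS X (t + w)) volume (-h) h :=
      ((SS_cont X).comp (continuous_const.add continuous_id)).intervalIntegrable _ _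
    have h3 := NX_ii hX t h
    rw [h1, hF]
    simp only
    rw [intervalIntegral.integral_const_mul, intervalIntegral.integral_add (h3.sub intervalIntegrable_const) h2,
      intervalIntegral.integral_sub h3 intervalIntegrable_const, intervalIntegral.integral_const, smul_eq_mul]
    ring
  have hI1 : Integrable (fun t => ∫ w, F (t, w) ∂ν) := hFi.integral_prod_left
  have hSSm : Continuous (fun t => ∫ w in (-h)..h, SS X (t + w)) := by
    refine intervalIntegral.continuous_parametric_intervalIntegral_of_continuous' ?_ _ _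
    exact (SS_cont X).comp (continuous_fst.add continuous_snd)
  have hI2 : Integrable (fun t => wt T c v τ t * (∫ w in (-h)..h, SS X (t + w))) := by
    refine hw.mul_bdd (c := CS * |h - -h|) hSSm.aestronglyMeasurable (Eventually.of_forall fun t => ?_)
    refine intervalIntegral.norm_integral_le_of_norm_le_const fun w _ => ?_
    rw [Real.norm_eq_abs]
    exact hCS _
  have hI3 : Integrable (fun t => wt T c v τ t * (2 * h * c)) := hw.mul_const _
  have hI4 : Integrable (fun t => wt T c v τ t * (∫ w in (-h)..h, Helper69.UG.NX X (t + w))) := by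
    have h1 := (hI1.add hI3).sub hI2
    refine h1.congr (Eventually.of_forall fun t => ?_)
    simp only [Pi.add_apply, Pi.sub_apply, hin]
    ring
  have habs : |∫ t, ∫ w, F (t, w) ∂ν| ≤ 2 * h * D := by
    calc |∫ t, ∫ w, F (t, w) ∂ν| = |∫ z, F z ∂(volume.prod ν)| := by rw [integral_prod _ hFi]
      _ ≤ ∫ z, ‖F z‖ ∂(volume.prod ν) := norm_integral_le_integral_norm F
      _ = ∫ w, (∫ t, ‖F (t, w)‖) ∂ν := by rw [integral_prod_symm _ hFi.norm]
      _ ≤ ∫ _, D ∂ν := by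
          refine integral_mono_ae ?_ (integrable_const _) ?_
          · exact Integrable.of_bound hnm.aestronglyMeasurable D hbd
          · filter_upwards [hbd] with w hw
            exact (le_abs_self _).trans hw
      _ = 2 * h * D := by
          rw [integral_const, hν, smul_eq_mul]
          have : (volume.restrict (Ioc (-h) h)).real univ = 2 * h := by
            rw [measureReal_def, Measure.restrict_apply_univ, Real.volume_Ioc, ENNReal.toReal_ofReal (by linarith)]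
            ring
          rw [this]
  have hII : ∫ t, ∫ w, F (t, w) ∂ν = (∫ t, wt T c v τ t * (∫ w in (-h)..h, Helper69.UG.NX X (t + w))) -
      (∫ t, wt T c v τ t) * (2 * h * c) + ∫ t, wt T c v τ t * (∫ w in (-h)..h, SS X (t + w)) := by
    simp only [hin]
    rw [integral_add (f := fun t => wt T c v τ t * (∫ w in (-h)..h, Helper69.UG.NX X (t + w)) - wt T c v τ t * (2 * h * c))
      (hI4.sub hI3) hI2, integral_sub hI4 hI3, integral_mul_const]
  have e1 : ∀ f : ℝ → ℝ, ∀ t, wt T c v τ t * (X / (2 * Real.pi) * f t) = 1 / (2 * h) * (wt T c v τ t * f t) := by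
    intro f t
    rw [hhX]
    ring
  constructor
  · have h1 := hI4.const_mul (1 / (2 * h))
    refine h1.congr (Eventually.of_forall fun t => ?_)
    exact (e1 (fun t => ∫ w in (-h)..h, Helper69.UG.NX X (t + w)) t).symm
  · have h1 : ∫ t, wt T c v τ t * (X / (2 * Real.pi) * ∫ w in (-h)..h, Helper69.UG.NX X (t + w)) =
        1 / (2 * h) * ∫ t, wt T c v τ t * (∫ w in (-h)..h, Helper69.UG.NX X (t + w)) := by
      rw [← integral_const_mul]
      exact integral_congr_ae (Eventually.of_forall fun t => e1 (fun t => ∫ w in (-h)..h, Helper69.UG.NX X (t + w)) t)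
    have h2 : ∫ t, wt T c v τ t * (X / (2 * Real.pi) * ∫ w in (-h)..h, SS X (t + w)) =
        1 / (2 * h) * ∫ t, wt T c v τ t * (∫ w in (-h)..h, SS X (t + w)) := by
      rw [← integral_const_mul]
      exact integral_congr_ae (Eventually.of_forall fun t => e1 (fun t => ∫ w in (-h)..h, SS X (t + w)) t)
    rw [h1, h2]
    have h3 : 1 / (2 * h) * (∫ t, wt T c v τ t * (∫ w in (-h)..h, Helper69.UG.NX X (t + w))) - c * (∫ t, wt T c v τ t) +
        1 / (2 * h) * (∫ t, wt T c v τ t * (∫ w in (-h)..h, SS X (t + w))) = 1 / (2 * h) * ∫ t, ∫ w, F (t, w) ∂ν := by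
      rw [hII]
      field_simp
    rw [h3, abs_mul, abs_of_pos (by positivity)]
    calc 1 / (2 * h) * |∫ t, ∫ w, F (t, w) ∂ν| ≤ 1 / (2 * h) * (2 * h * D) := by gcongr
      _ = D := by field_simp

/-- Tonelli for the window counts -/
theorem tonelli {w Z K N : ℝ → ℝ} (hw0 : ∀ t, 0 ≤ w t) (hwm : Measurable w) (hZ0 : ∀ t, 0 ≤ Z t) (hZm : Measurable Z)
    (hK0 : ∀ s, 0 ≤ K s) (hKm : Measurable K)
    (hZK : ∀ t, Integrable (fun s => K s * Z (t + s)) ∧ ∫ s, K s * Z (t + s) = N t)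
    (hN : Integrable (fun t => w t * N t)) :
    ∫⁻ s, ENNReal.ofReal (K s) * ∫⁻ t, ENNReal.ofReal (w t * Z (t + s)) = ENNReal.ofReal (∫ t, w t * N t) := by
  have hN0 : ∀ t, 0 ≤ N t := fun t => by
    rw [← (hZK t).2]
    exact integral_nonneg fun s => mul_nonneg (hK0 s) (hZ0 _)
  have hm : Measurable (fun z : ℝ × ℝ => ENNReal.ofReal (K z.1) * ENNReal.ofReal (w z.2 * Z (z.2 + z.1))) := by
    refine (hKm.comp measurable_fst).ennreal_ofReal.mul (Measurable.ennreal_ofReal ?_)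
    exact (hwm.comp measurable_snd).mul (hZm.comp (measurable_snd.add measurable_fst))
  calc ∫⁻ s, ENNReal.ofReal (K s) * ∫⁻ t, ENNReal.ofReal (w t * Z (t + s))
      = ∫⁻ s, ∫⁻ t, ENNReal.ofReal (K s) * ENNReal.ofReal (w t * Z (t + s)) := by
        refine lintegral_congr fun s => (lintegral_const_mul _ ?_).symm
        exact (hwm.mul (hZm.comp (measurable_id.add_const s))).ennreal_ofReal
    _ = ∫⁻ t, ∫⁻ s, ENNReal.ofReal (K s) * ENNReal.ofReal (w t * Z (t + s)) :=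
        lintegral_lintegral_swap hm.aemeasurable
    _ = ∫⁻ t, ENNReal.ofReal (w t * N t) := by
        refine lintegral_congr fun t => ?_
        have h1 : ∀ s, ENNReal.ofReal (K s) * ENNReal.ofReal (w t * Z (t + s)) = ENNReal.ofReal (w t * (K s * Z (t + s))) := by
          intro s
          rw [← ENNReal.ofReal_mul (hK0 s)]
          congr 1
          ring
        simp only [h1]
        rw [← ofReal_integral_eq_lintegral_ofReal ((hZK t).1.const_mul (w t))
          (Eventually.of_forall fun s => mul_nonneg (hw0 t) (mul_nonneg (hK0 s) (hZ0 _))), integral_const_mul, (hZK t).2]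
    _ = ENNReal.ofReal (∫ t, w t * N t) :=
        (ofReal_integral_eq_lintegral_ofReal hN (Eventually.of_forall fun t => mul_nonneg (hw0 t) (hN0 t))).symm

lemma meas_abs (B : ℝ) : MeasurableSet {s : ℝ | B < |s|} := measurableSet_lt measurable_const measurable_norm

/-- choice of a shift, upper bound -/
theorem choice_le {K : ℝ → ℝ} (hK0 : ∀ s, 0 ≤ K s) (hK : Integrable K) (h1 : ∫ s, K s = 1) {B δ : ℝ}
    (hB : ∫ s in {s : ℝ | B < |s|}, K s ≤ δ) {J : ℝ → ENNReal} {M a : ℝ} (hM0 : 0 ≤ M)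
    (hM : ∫⁻ s, ENNReal.ofReal (K s) * J s ≤ ENNReal.ofReal M) (ha : 0 ≤ a) (hMa : M < a * (1 - δ)) :
    ∃ s : ℝ, |s| ≤ B ∧ J s ≤ ENNReal.ofReal a := by
  by_contra hcon
  push Not at hcon
  have hS := meas_abs B
  have h2 : ∫ s in {s : ℝ | B < |s|}ᶜ, K s = 1 - ∫ s in {s : ℝ | B < |s|}, K s := by
    rw [← h1, ← integral_add_compl hS hK]
    ring
  have h3 : ENNReal.ofReal (a * (1 - δ)) ≤ ∫⁻ s, ENNReal.ofReal (K s) * J s := by
    calc ENNReal.ofReal (a * (1 - δ)) ≤ ENNReal.ofReal (a * ∫ s in {s : ℝ | B < |s|}ᶜ, K s) := by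
          apply ENNReal.ofReal_le_ofReal
          rw [h2]
          exact mul_le_mul_of_nonneg_left (by linarith) ha
      _ = ENNReal.ofReal a * ∫⁻ s in {s : ℝ | B < |s|}ᶜ, ENNReal.ofReal (K s) := by
          rw [ENNReal.ofReal_mul ha, ofReal_integral_eq_lintegral_ofReal hK.integrableOn (Eventually.of_forall hK0)]
      _ = ∫⁻ s in {s : ℝ | B < |s|}ᶜ, ENNReal.ofReal a * ENNReal.ofReal (K s) := by
          rw [lintegral_const_mul' _ _ ENNReal.ofReal_ne_top]
      _ ≤ ∫⁻ s in {s : ℝ | B < |s|}ᶜ, ENNReal.ofReal (K s) * J s := by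
          refine setLIntegral_mono' hS.compl fun s hs => ?_
          rw [mul_comm]
          refine mul_le_mul_right (hcon s ?_).le _
          rw [mem_compl_iff, mem_ofPred_eq, not_lt] at hs
          exact hs
      _ ≤ ∫⁻ s, ENNReal.ofReal (K s) * J s := setLIntegral_le_lintegral _ _
  have h4 := (ENNReal.ofReal_lt_ofReal_iff (hM0.trans_lt hMa)).2 hMa
  exact absurd (h3.trans hM) (not_le.2 h4)

/-- choice of a shift, lower bound -/
theorem choice_ge {K : ℝ → ℝ} (hK0 : ∀ s, 0 ≤ K s) (hK : Integrable K) (h1 : ∫ s, K s = 1) {B : ℝ}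
    {J : ℝ → ENNReal} {M a e : ℝ} (hM : ENNReal.ofReal M ≤ ∫⁻ s, ENNReal.ofReal (K s) * J s)
    (htail : ∫⁻ s in {s : ℝ | B < |s|}, ENNReal.ofReal (K s) * J s ≤ ENNReal.ofReal e) (he : 0 ≤ e)
    (ha : 0 ≤ a) (hMa : a + e < M) :
    ∃ s : ℝ, |s| ≤ B ∧ ENNReal.ofReal a ≤ J s := by
  by_contra hcon
  push Not at hcon
  have hS := meas_abs B
  have h3 : ∫⁻ s, ENNReal.ofReal (K s) * J s ≤ ENNReal.ofReal (a + e) := by
    rw [← lintegral_add_compl _ hS, add_comm, ENNReal.ofReal_add ha he]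
    refine add_le_add ?_ htail
    calc ∫⁻ s in {s : ℝ | B < |s|}ᶜ, ENNReal.ofReal (K s) * J s
        ≤ ∫⁻ s in {s : ℝ | B < |s|}ᶜ, ENNReal.ofReal a * ENNReal.ofReal (K s) := by
          refine setLIntegral_mono' hS.compl fun s hs => ?_
          rw [mul_comm]
          refine mul_le_mul_left (hcon s ?_).le _
          rw [mem_compl_iff, mem_ofPred_eq, not_lt] at hs
          exact hs
      _ ≤ ∫⁻ s, ENNReal.ofReal a * ENNReal.ofReal (K s) := setLIntegral_le_lintegral _ _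
      _ = ENNReal.ofReal a * ENNReal.ofReal (∫ s, K s) := by
          rw [lintegral_const_mul' _ _ ENNReal.ofReal_ne_top, ofReal_integral_eq_lintegral_ofReal hK (Eventually.of_forall hK0)]
      _ = ENNReal.ofReal a := by rw [h1, ENNReal.ofReal_one, mul_one]
  have h4 := (ENNReal.ofReal_lt_ofReal_iff ((add_nonneg ha he).trans_lt hMa)).2 hMa
  exact absurd (hM.trans h3) (not_le.2 h4)

/-- the integrable majorant -/
lemma jb {r : ℝ} (hr : 1 < r) : Integrable (fun x : ℝ => (1 + x ^ 2) ^ (-r / 2)) := by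
  have h := integrable_rpow_neg_one_add_norm_sq (E := ℝ) (μ := volume) (r := r) (by simpa using hr)
  simpa only [Real.norm_eq_abs, sq_abs] using h

/-- moments of the Poisson kernel -/
theorem PW_pow : ∃ C : ℝ, 0 ≤ C ∧ ∀ W : ℝ, 0 < W → ∀ τ : ℝ, Integrable (fun t => PW W (t - τ) * (4 + |t|) ^ (1 / 8 : ℝ)) ∧
    ∫ t, PW W (t - τ) * (4 + |t|) ^ (1 / 8 : ℝ) ≤ C * (4 + |τ| + W) ^ (1 / 8 : ℝ) := by
  have hj := jb (r := 7 / 4) (by norm_num)
  refine ⟨∫ y : ℝ, (1 + y ^ 2) ^ (-(7 / 4 : ℝ) / 2), integral_nonneg fun y => by positivity, fun W hW τ => ?_⟩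
  have hpi := Real.pi_gt_three
  have hg : Integrable (fun t : ℝ => (1 + ((t - τ) / W) ^ 2) ^ (-(7 / 4 : ℝ) / 2)) :=
    (hj.comp_div hW.ne').comp_sub_right τ
  have hgi : ∫ t : ℝ, (1 + ((t - τ) / W) ^ 2) ^ (-(7 / 4 : ℝ) / 2) = W * ∫ y : ℝ, (1 + y ^ 2) ^ (-(7 / 4 : ℝ) / 2) := by
    rw [integral_sub_right_eq_self (fun t : ℝ => (1 + (t / W) ^ 2) ^ (-(7 / 4 : ℝ) / 2)) τ,
      Measure.integral_comp_div (fun y : ℝ => (1 + y ^ 2) ^ (-(7 / 4 : ℝ) / 2)) W, abs_of_pos hW, smul_eq_mul]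
  set A : ℝ := 4 + |τ| + W with hA
  have hA0 : 0 < A := by positivity
  have hpt : ∀ t, PW W (t - τ) * (4 + |t|) ^ (1 / 8 : ℝ) ≤ A ^ (1 / 8 : ℝ) / W * (1 + ((t - τ) / W) ^ 2) ^ (-(7 / 4 : ℝ) / 2) := by
    intro t
    set x := (t - τ) / W with hx
    have h1 : 4 + |t| ≤ A * (1 + |x|) := by
      have h2 : |t| ≤ |τ| + |t - τ| := by
        have := abs_add_le τ (t - τ)
        rwa [add_sub_cancel] at this
      have h3 : |t - τ| = |x| * W := by rw [hx, abs_div, abs_of_pos hW]; field_simp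
      have h4 : 0 ≤ |x| * (4 + |τ|) := by positivity
      have h5 : A * (1 + |x|) = A + |x| * (4 + |τ|) + |x| * W := by rw [hA]; ring
      rw [h5, hA]
      linarith
    have h2 : (1 + |x|) ≤ 2 * (1 + x ^ 2) := by
      have h3 : |x| ≤ 1 + x ^ 2 := by
        rw [← sq_abs]
        nlinarith [sq_nonneg (|x| - 1), abs_nonneg x]
      nlinarith [sq_nonneg x]
    have h3 : (4 + |t|) ^ (1 / 8 : ℝ) ≤ A ^ (1 / 8 : ℝ) * (2 ^ (1 / 8 : ℝ) * (1 + x ^ 2) ^ (1 / 8 : ℝ)) := by
      rw [← Real.mul_rpow (by norm_num) (by positivity), ← Real.mul_rpow hA0.le (by positivity)]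
      refine Real.rpow_le_rpow (by positivity) (h1.trans (mul_le_mul_of_nonneg_left h2 hA0.le)) (by norm_num)
    have h4 : (2 : ℝ) ^ (1 / 8 : ℝ) ≤ 2 := by
      calc (2 : ℝ) ^ (1 / 8 : ℝ) ≤ 2 ^ (1 : ℝ) := Real.rpow_le_rpow_of_exponent_le (by norm_num) (by norm_num)
        _ = 2 := Real.rpow_one 2
    have h5 : PW W (t - τ) = 1 / (Real.pi * W) * (1 + x ^ 2) ^ (-1 : ℝ) := by
      rw [Real.rpow_neg_one, hx]
      unfold PW
      field_simp
    have h6 : (1 + x ^ 2) ^ (-1 : ℝ) * (1 + x ^ 2) ^ (1 / 8 : ℝ) = (1 + x ^ 2) ^ (-(7 / 4 : ℝ) / 2) := by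
      rw [← Real.rpow_add (by positivity)]
      norm_num
    calc PW W (t - τ) * (4 + |t|) ^ (1 / 8 : ℝ)
        ≤ (1 / (Real.pi * W) * (1 + x ^ 2) ^ (-1 : ℝ)) * (A ^ (1 / 8 : ℝ) * (2 * (1 + x ^ 2) ^ (1 / 8 : ℝ))) := by
          rw [h5]
          refine mul_le_mul_of_nonneg_left (h3.trans ?_) (by positivity)
          gcongr
      _ = (2 / Real.pi) * (A ^ (1 / 8 : ℝ) / W * (1 + x ^ 2) ^ (-(7 / 4 : ℝ) / 2)) := by
          rw [← h6]; field_simp
      _ ≤ 1 * (A ^ (1 / 8 : ℝ) / W * (1 + x ^ 2) ^ (-(7 / 4 : ℝ) / 2)) := by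
          refine mul_le_mul_of_nonneg_right ?_ (by positivity)
          rw [div_le_one Real.pi_pos]
          linarith
      _ = _ := one_mul _
  have hi : Integrable (fun t => PW W (t - τ) * (4 + |t|) ^ (1 / 8 : ℝ)) := by
    refine (hg.const_mul (A ^ (1 / 8 : ℝ) / W)).mono' ?_ (Eventually.of_forall fun t => ?_)
    · have hc : Continuous (fun t => PW W (t - τ) * (4 + |t|) ^ (1 / 8 : ℝ)) := by
        unfold PW
        refine Continuous.mul (Continuous.div continuous_const (by fun_prop) fun t => by positivity) ?_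
        exact (continuous_const.add continuous_abs).rpow_const fun t => Or.inr (by norm_num)
      exact hc.aestronglyMeasurable
    · rw [Real.norm_of_nonneg (mul_nonneg (PW_pos hW _).le (by positivity))]
      exact hpt t
  refine ⟨hi, (integral_mono hi (hg.const_mul _) hpt).trans (le_of_eq ?_)⟩
  rw [integral_const_mul, hgi]
  field_simp

/-- the tail of the kernel against a small power -/
theorem K_tail : ∃ C : ℝ, 0 ≤ C ∧ ∀ X B P : ℝ, 1 ≤ X → 1 ≤ B → 0 ≤ P → ∀ J : ℝ → ENNReal,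
    (∀ s, J s ≤ ENNReal.ofReal (P * (4 + |s|) ^ (1 / 16 : ℝ))) →
    ∫⁻ s in {s : ℝ | B < |s|}, ENNReal.ofReal (X / (2 * Real.pi) * qk 0 (X * s)) * J s ≤
      ENNReal.ofReal (P * (C * B ^ (-(1 / 2) : ℝ))) := by
  have hj := jb (r := 5 / 4) (by norm_num)
  refine ⟨16 * ∫ y : ℝ, (1 + y ^ 2) ^ (-(5 / 4 : ℝ) / 2), mul_nonneg (by norm_num) (integral_nonneg fun y => by positivity),
    fun X B P hX hB hP J hJ => ?_⟩
  have hpt : ∀ s ∈ {s : ℝ | B < |s|}, ENNReal.ofReal (X / (2 * Real.pi) * qk 0 (X * s)) * J s ≤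
      ENNReal.ofReal (P * (16 * B ^ (-(1 / 2) : ℝ)) * (1 + s ^ 2) ^ (-(5 / 4 : ℝ) / 2)) := by
    intro s hs
    rw [mem_ofPred_eq] at hs
    have hs1 : 1 < |s| := lt_of_le_of_lt hB hs
    have hq0 := qk_zero_nonneg (X * s)
    have hX0 : 0 < X := by linarith
    have hK : X / (2 * Real.pi) * qk 0 (X * s) ≤ 4 * |s| ^ (-2 : ℝ) := by
      have h1 := qk_bound 0 (X * s)
      rw [Real.cosh_zero, mul_one] at h1
      have h2 : qk 0 (X * s) ≤ 21 / (1 + (X * s) ^ 2) := (le_abs_self _).trans h1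
      have h3 : 21 / (1 + (X * s) ^ 2) ≤ 21 / (X * s ^ 2) := by
        have hs2 : 0 < s ^ 2 := by rw [← sq_abs]; positivity
        apply div_le_div_of_nonneg_left (by norm_num) (by positivity)
        nlinarith [mul_le_mul_of_nonneg_right (mul_le_mul_of_nonneg_left hX hX0.le) hs2.le]
      have h4 : |s| ^ (-2 : ℝ) = 1 / s ^ 2 := by
        rw [show (-2 : ℝ) = -((2 : ℕ) : ℝ) by norm_num, Real.rpow_neg (abs_nonneg s), Real.rpow_natCast, sq_abs, one_div]
      rw [h4]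
      have hpi := Real.pi_gt_three
      have hs2 : 0 < s ^ 2 := by rw [← sq_abs]; positivity
      calc X / (2 * Real.pi) * qk 0 (X * s) ≤ X / (2 * Real.pi) * (21 / (X * s ^ 2)) :=
            mul_le_mul_of_nonneg_left (h2.trans h3) (by positivity)
        _ = 21 / (2 * Real.pi) * (1 / s ^ 2) := by field_simp
        _ ≤ 4 * (1 / s ^ 2) := by
            refine mul_le_mul_of_nonneg_right ?_ (by positivity)
            rw [div_le_iff₀ (by positivity)]
            linarith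
    have hP4 : (4 + |s|) ^ (1 / 16 : ℝ) ≤ 2 * |s| ^ (1 / 16 : ℝ) := by
      calc (4 + |s|) ^ (1 / 16 : ℝ) ≤ (5 * |s|) ^ (1 / 16 : ℝ) :=
            Real.rpow_le_rpow (by positivity) (by linarith) (by norm_num)
        _ = 5 ^ (1 / 16 : ℝ) * |s| ^ (1 / 16 : ℝ) := Real.mul_rpow (by norm_num) (abs_nonneg s)
        _ ≤ 2 * |s| ^ (1 / 16 : ℝ) := by
            refine mul_le_mul_of_nonneg_right ?_ (by positivity)
            have h1 : (5 : ℝ) ^ (1 / 16 : ℝ) ≤ (2 ^ (16 : ℝ)) ^ (1 / 16 : ℝ) :=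
              Real.rpow_le_rpow (by norm_num) (by norm_num) (by norm_num)
            rw [← Real.rpow_mul (by norm_num)] at h1
            norm_num at h1
            norm_num
            exact h1
    have hexp : |s| ^ (-2 : ℝ) * |s| ^ (1 / 16 : ℝ) ≤ B ^ (-(1 / 2) : ℝ) * |s| ^ (-(5 / 4) : ℝ) := by
      have hs0 : 0 < |s| := by linarith
      rw [← Real.rpow_add hs0]
      have h1 : |s| ^ (-2 + 1 / 16 : ℝ) ≤ |s| ^ (-(1 / 2) + -(5 / 4) : ℝ) :=
        Real.rpow_le_rpow_of_exponent_le hs1.le (by norm_num)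
      rw [Real.rpow_add hs0 (-(1 / 2) : ℝ) (-(5 / 4) : ℝ)] at h1
      refine h1.trans (mul_le_mul_of_nonneg_right ?_ (by positivity))
      exact Real.rpow_le_rpow_of_nonpos (by linarith) hs.le (by norm_num)
    have hlast : |s| ^ (-(5 / 4) : ℝ) ≤ 2 * (1 + s ^ 2) ^ (-(5 / 4 : ℝ) / 2) := by
      have hs0 : 0 < |s| := by linarith
      have h1 : (1 + s ^ 2) ≤ 2 * |s| ^ (2 : ℝ) := by
        rw [Real.rpow_two, sq_abs]
        have : 1 ≤ s ^ 2 := by rw [← sq_abs]; nlinarith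
        linarith
      have h2 : (2 * |s| ^ (2 : ℝ)) ^ (-(5 / 4 : ℝ) / 2) ≤ (1 + s ^ 2) ^ (-(5 / 4 : ℝ) / 2) :=
        Real.rpow_le_rpow_of_nonpos (by positivity) h1 (by norm_num)
      rw [Real.mul_rpow (by norm_num) (by positivity), ← Real.rpow_mul hs0.le] at h2
      have h3 : (2 : ℝ) * (-(5 / 4 : ℝ) / 2) = -(5 / 4) := by norm_num
      rw [h3] at h2
      have h4 : (1 / 2 : ℝ) ≤ 2 ^ (-(5 / 4 : ℝ) / 2) := by
        calc (1 / 2 : ℝ) = 2 ^ (-1 : ℝ) := by rw [Real.rpow_neg_one]; norm_num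
          _ ≤ 2 ^ (-(5 / 4 : ℝ) / 2) := Real.rpow_le_rpow_of_exponent_le (by norm_num) (by norm_num)
      have h5 : 1 / 2 * |s| ^ (-(5 / 4) : ℝ) ≤ 2 ^ (-(5 / 4 : ℝ) / 2) * |s| ^ (-(5 / 4) : ℝ) :=
        mul_le_mul_of_nonneg_right h4 (by positivity)
      linarith
    calc ENNReal.ofReal (X / (2 * Real.pi) * qk 0 (X * s)) * J s
        ≤ ENNReal.ofReal (4 * |s| ^ (-2 : ℝ)) * ENNReal.ofReal (P * (4 + |s|) ^ (1 / 16 : ℝ)) :=
          mul_le_mul' (ENNReal.ofReal_le_ofReal hK) (hJ s)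
      _ = ENNReal.ofReal (4 * |s| ^ (-2 : ℝ) * (P * (4 + |s|) ^ (1 / 16 : ℝ))) := (ENNReal.ofReal_mul (by positivity)).symm
      _ ≤ _ := by
          apply ENNReal.ofReal_le_ofReal
          have h1 : 4 * |s| ^ (-2 : ℝ) * (P * (4 + |s|) ^ (1 / 16 : ℝ)) ≤ 4 * |s| ^ (-2 : ℝ) * (P * (2 * |s| ^ (1 / 16 : ℝ))) := by
            gcongr
          have h2 : 4 * |s| ^ (-2 : ℝ) * (P * (2 * |s| ^ (1 / 16 : ℝ))) = 8 * P * (|s| ^ (-2 : ℝ) * |s| ^ (1 / 16 : ℝ)) := by ring
          have hB0 : 0 ≤ B ^ (-(1 / 2) : ℝ) := by positivity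
          have h3 : 8 * P * (|s| ^ (-2 : ℝ) * |s| ^ (1 / 16 : ℝ)) ≤ 8 * P * (B ^ (-(1 / 2) : ℝ) * (2 * (1 + s ^ 2) ^ (-(5 / 4 : ℝ) / 2))) := by
            refine mul_le_mul_of_nonneg_left (hexp.trans ?_) (by positivity)
            exact mul_le_mul_of_nonneg_left hlast hB0
          linarith
  calc ∫⁻ s in {s : ℝ | B < |s|}, ENNReal.ofReal (X / (2 * Real.pi) * qk 0 (X * s)) * J s
      ≤ ∫⁻ s in {s : ℝ | B < |s|}, ENNReal.ofReal (P * (16 * B ^ (-(1 / 2) : ℝ)) * (1 + s ^ 2) ^ (-(5 / 4 : ℝ) / 2)) :=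
        setLIntegral_mono' (meas_abs B) hpt
    _ ≤ ∫⁻ s, ENNReal.ofReal (P * (16 * B ^ (-(1 / 2) : ℝ)) * (1 + s ^ 2) ^ (-(5 / 4 : ℝ) / 2)) := setLIntegral_le_lintegral _ _
    _ = ENNReal.ofReal (∫ s, P * (16 * B ^ (-(1 / 2) : ℝ)) * (1 + s ^ 2) ^ (-(5 / 4 : ℝ) / 2)) := by
        rw [ofReal_integral_eq_lintegral_ofReal (hj.const_mul _) (Eventually.of_forall fun s => by positivity)]
    _ = _ := by
        rw [integral_const_mul]
        congr 1
        ring

end Pool.Agent.Helper80.UG
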